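import Mathlib

set_option autoImplicit false

/-!
Definitions for the project RZ (real zeros of quadratic Dirichlet L-functions): mollified moments of
`L(s, χ_{8d})` near `s = 1/2` over odd `d`.
-/

namespace Pool.Agent.H306R2.RZ

open Finset Filter Topology MeasureTheory

noncomputable section

/-- Jacobi symbol `(k | n)` as a real number -/
def js (k : ℤ) (n : ℕ) : ℝ := ((jacobiSym k n : ℤ) : ℝ)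

/-- `cas t = cos t + sin t` -/
def cas (t : ℝ) : ℝ := Real.cos t + Real.sin t

/-- `G_k(n) = Σ_{r mod n} (r|n) cas(2πkr/n)` -/
def Gk (k : ℤ) (n : ℕ) : ℝ :=
  ∑ r ∈ range n, js (r : ℤ) n * cas (2 * Real.pi * (k : ℝ) * (r : ℝ) / (n : ℝ))

/-- `F~(ξ) = ∫ F(x) cas(2πξx) dx` -/
def Ft (F : ℝ → ℝ) (ξ : ℝ) : ℝ := ∫ x, F x * cas (2 * Real.pi * ξ * x)

/-- test functions: smooth, compactly supported in `(0,∞)` -/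
structure TF (F : ℝ → ℝ) : Prop where
  smooth : ContDiff ℝ ((⊤ : ℕ∞) : WithTop ℕ∞) F
  cpt : HasCompactSupport F
  pos : tsupport F ⊆ Set.Ioi 0

/-- average over odd `d` with the smooth weight `F(d/X)` -/
def EF (F : ℝ → ℝ) (X : ℝ) (f : ℕ → ℝ) : ℝ :=
  (∑' d : ℕ, if Odd d then F ((d : ℝ) / X) * f d else 0) / X

/-- `N_d[w] = Σ_{(n,q)=1} (8d|n) n^{-1/2} w(log n / L)` -/
def Nd (q : ℕ) (L : ℝ) (w : ℝ → ℝ) (d : ℕ) : ℝ :=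
  ∑' n : ℕ, if Nat.Coprime n q then
    js (8 * (d : ℤ)) n / Real.sqrt n * w (Real.log n / L) else 0

/-- `M_d[Q] = Σ_{(n,q)=1} μ(n) (8d|n) n^{-1/2} Q(log n / L)` -/
def Md (q : ℕ) (L : ℝ) (Q : ℝ → ℝ) (d : ℕ) : ℝ :=
  ∑' n : ℕ, if Nat.Coprime n q then
    ((ArithmeticFunction.moebius n : ℤ) : ℝ) * js (8 * (d : ℤ)) n / Real.sqrt n *
      Q (Real.log n / L) else 0

/-- smooth weights supported in `[-1, s]` -/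
structure Wt (s : ℝ) (w : ℝ → ℝ) : Prop where
  smooth : ContDiff ℝ ((⊤ : ℕ∞) : WithTop ℕ∞) w
  supp : ∀ y, w y ≠ 0 → -1 ≤ y ∧ y ≤ s

/-- `B` bounds the derivatives of `w` up to order `k` -/
def Bd (k : ℕ) (w : ℝ → ℝ) (B : ℝ) : Prop := ∀ j ≤ k, ∀ y, |iteratedDeriv j w y| ≤ B

/-- the second moment -/
def TT (F : ℝ → ℝ) (X : ℝ) (q : ℕ) (L : ℝ) (w1 Q1 w2 Q2 : ℝ → ℝ) : ℝ :=
  EF F X (fun d => Nd q L w1 d * Md q L Q1 d * (Nd q L w2 d * Md q L Q2 d))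

/-- the first moment -/
def TO (F : ℝ → ℝ) (X : ℝ) (q : ℕ) (L : ℝ) (w Q : ℝ → ℝ) : ℝ :=
  EF F X (fun d => Nd q L w d * Md q L Q d)

/-- `𝒲(y) = ∫_y^∞ w` -/
def WW (w : ℝ → ℝ) (y : ℝ) : ℝ := ∫ u in Set.Ioi y, w u

/-- `α(y,t) = Q''(t) 𝒲(y) + Q(t) w'(y)` -/
def al (w Q : ℝ → ℝ) (y t : ℝ) : ℝ := iteratedDeriv 2 Q t * WW w y + Q t * deriv w y

/-- `Q(0) w(0) - Q'(0) 𝒲(0)` -/
def mn (w Q : ℝ → ℝ) : ℝ := Q 0 * w 0 - deriv Q 0 * WW w 0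

/-- limit of the second moment, divided by `(1/2) ∫ F` -/
def BB (w1 Q1 w2 Q2 : ℝ → ℝ) : ℝ :=
  (mn w1 Q1 * mn w2 Q2 + ∫ t in Set.Ioi (0 : ℝ), ∫ y in Set.Ioi (0 : ℝ),
    al w1 Q1 y t * (al w2 Q2 y t - al w2 Q2 (1 - y) t)) / 4

/-- contribution of `k = 0` for the modulus `n` -/
def D0 (F : ℝ → ℝ) (n : ℕ) : ℝ := Gk 0 n * Ft F 0 / (2 * n)

/-- contribution of `k = j^2`, `j ≥ 1` -/
def Dsq (F : ℝ → ℝ) (X : ℝ) (n : ℕ) : ℝ :=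
  (∑' j : ℕ, (-1 : ℝ) ^ (j + 1) * Gk (((j : ℤ) + 1) ^ 2) n *
    Ft F (((j : ℝ) + 1) ^ 2 * X / (2 * n))) / (2 * n)

/-- contribution of the non-squares `k` -/
def Dns (F : ℝ → ℝ) (X : ℝ) (n : ℕ) : ℝ :=
  (∑' k : ℤ, if IsSquare k then 0 else
    (-1 : ℝ) ^ k.natAbs * Gk k n * Ft F ((k : ℝ) * X / (2 * n))) / (2 * n)

/-- Mellin transform of `F~` -/
def Fm (F : ℝ → ℝ) (s : ℂ) : ℂ := mellin (fun ξ => ((Ft F ξ : ℝ) : ℂ)) s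

/-- `Z(s) = Σ_{j ≥ 1} (-1)^j j^{-2s}`, an entire function -/
def Zf (s : ℂ) : ℂ := HurwitzZeta.cosZeta (((1 / 2 : ℝ)) : UnitAddCircle) (2 * s)

/-- `κ_s(p^b) = 1 - 1/p` (`b ≥ 2` even), `p^{s-1/2} (1 - p^{-2s})` (`b` odd) -/
def ks (s : ℂ) (n : ℕ) : ℂ :=
  n.factorization.prod fun p b =>
    if Even b then 1 - 1 / (p : ℂ) else (p : ℂ) ^ (s - 1 / 2) * (1 - (p : ℂ) ^ (-(2 * s)))

/-- squarefree kernel: product of the primes with odd exponent -/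
def r0 (n : ℕ) : ℕ := n.factorization.prod fun p b => if Even b then 1 else p

/-- `ν(n) = ∏_{p | n} p/(p+1)` -/
def nu (n : ℕ) : ℝ := ∏ p ∈ n.primeFactors, (p : ℝ) / ((p : ℝ) + 1)

/-- `∏_{p | c} (1 - 1/p) ∏_{p ∤ c} (1 - 1/p²)` -/
def Pc (c : ℕ) : ℝ := 6 / Real.pi ^ 2 * nu c

/-- coefficients of the diagonal: `a = (n1, n2, l1, l2)` -/
def t1c (q : ℕ) (a : Fin 4 → ℕ) : ℝ :=
  if (∀ i, a i ≠ 0 ∧ Nat.Coprime (a i) q) ∧ IsSquare (∏ i, a i) then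
    ((ArithmeticFunction.moebius (a 2) : ℤ) : ℝ) * ((ArithmeticFunction.moebius (a 3) : ℤ) : ℝ) *
      ((∏ i, a i : ℕ).totient / ((∏ i, a i : ℕ) : ℝ)) / Real.sqrt ((∏ i, a i : ℕ) : ℝ)
  else 0

/-- Dirichlet series of the diagonal -/
def DD1 (q : ℕ) (z : Fin 4 → ℂ) : ℂ := ∑' a : Fin 4 → ℕ, (t1c q a : ℂ) * ∏ i, (a i : ℂ) ^ (-(z i))

/-- coefficients of the off-diagonal: `a = (n2, l1, l2)` -/
def t2c (q : ℕ) (s : ℂ) (a : Fin 3 → ℕ) : ℂ :=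
  if (∀ i, a i ≠ 0 ∧ Nat.Coprime (a i) q) then
    ((ArithmeticFunction.moebius (a 1) : ℤ) : ℂ) * ((ArithmeticFunction.moebius (a 2) : ℤ) : ℂ) *
      (nu (∏ i, a i) : ℂ) * ((r0 (∏ i, a i) : ℕ) : ℂ) ^ (s - 1 / 2) /
        ((Real.sqrt ((∏ i, a i : ℕ) : ℝ) : ℝ) : ℂ)
  else 0

/-- Dirichlet series of the off-diagonal -/
def DD2 (q : ℕ) (s : ℂ) (z : Fin 3 → ℂ) : ℂ :=
  ∑' a : Fin 3 → ℕ, t2c q s a * ∏ i, (a i : ℂ) ^ (-(z i))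

/-- coefficients of the first moment: `a = (n, l)` -/
def t3c (q : ℕ) (a : Fin 2 → ℕ) : ℝ :=
  if (∀ i, a i ≠ 0 ∧ Nat.Coprime (a i) q) ∧ IsSquare (∏ i, a i) then
    ((ArithmeticFunction.moebius (a 1) : ℤ) : ℝ) *
      ((∏ i, a i : ℕ).totient / ((∏ i, a i : ℕ) : ℝ)) / Real.sqrt ((∏ i, a i : ℕ) : ℝ)
  else 0

/-- Dirichlet series of the first moment -/
def DD3 (q : ℕ) (z : Fin 2 → ℂ) : ℂ := ∑' a : Fin 2 → ℕ, (t3c q a : ℂ) * ∏ i, (a i : ℂ) ^ (-(z i))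

/-- Laplace-Fourier coefficients: `w(y) = ∫ fh c w τ e^{-(c+iτ)y} dτ` -/
def fh (c : ℝ) (w : ℝ → ℝ) (τ : ℝ) : ℂ :=
  (1 / (2 * Real.pi) : ℂ) * ∫ y : ℝ, (w y : ℂ) * Complex.exp (((c : ℂ) + τ * Complex.I) * y)

/-- off-diagonal coefficient of the quadruple `(n1, n2, l1, l2)` -/
def t4c (q : ℕ) (a : Fin 4 → ℕ) : ℝ :=
  if (∀ i, a i ≠ 0 ∧ Nat.Coprime (a i) q) then
    ((ArithmeticFunction.moebius (a 2) : ℤ) : ℝ) * ((ArithmeticFunction.moebius (a 3) : ℤ) : ℝ) /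
      Real.sqrt ((∏ i, a i : ℕ) : ℝ)
  else 0

/-- the weight of the quadruple -/
def w4 (L : ℝ) (w1 w2 Q1 Q2 : ℝ → ℝ) (a : Fin 4 → ℕ) : ℝ :=
  w1 (Real.log (a 0) / L) * w2 (Real.log (a 1) / L) * Q1 (Real.log (a 2) / L) *
    Q2 (Real.log (a 3) / L)

/-- the smooth factor -/
def ph (F : ℝ → ℝ) (X L : ℝ) (w1 w2 : ℝ → ℝ) (k : ℤ) (l : ℕ) (a b : ℕ) : ℝ :=
  Ft F ((k : ℝ) * X / (2 * ((a : ℝ) * b * l))) * w1 (Real.log a / L) * w2 (Real.log b / L) /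
    (2 * ((a : ℝ) * b * l))

/-- Dirichlet coefficients of `Σ_{(m,c)=1} m^{-1/2} κ_s(m) m^{-u} / ζ(1+u-s)` -/
def gg (c : ℕ) (s : ℂ) (b : ℕ) : ℂ :=
  ∑ x ∈ b.divisorsAntidiagonal, ((ArithmeticFunction.moebius x.1 : ℤ) : ℂ) * (x.1 : ℂ) ^ (s - 1) *
    (if x.2.Coprime c then (x.2 : ℂ) ^ (-(1 / 2) : ℂ) * ks s x.2 else 0)

/-- main part of the contribution of the squares, on the line `Re s = σ0` -/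
def T2m (F : ℝ → ℝ) (X : ℝ) (q : ℕ) (L : ℝ) (w1 w2 Q1 Q2 : ℝ → ℝ) (σ0 : ℝ) : ℂ :=
  1 / 2 * (Pc q : ℂ) * ((1 / (2 * Real.pi) : ℂ) * ∫ t : ℝ,
    Fm F ((σ0 : ℂ) + t * Complex.I) * ((X / 2 : ℝ) : ℂ) ^ (-((σ0 : ℂ) + t * Complex.I)) *
    Zf ((σ0 : ℂ) + t * Complex.I) * (L : ℂ) *
    (∫ y : ℝ, (w1 y : ℂ) * Complex.exp (((σ0 : ℂ) + t * Complex.I) * L * y)) *
    ∑' a : Fin 3 → ℕ, t2c q ((σ0 : ℂ) + t * Complex.I) a *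
      ((w2 (Real.log (a 0) / L) * Q1 (Real.log (a 1) / L) * Q2 (Real.log (a 2) / L) : ℝ) : ℂ))

/-- local factors -/
def lf1 (q : ℕ) (z : Fin 4 → ℂ) (p : ℕ) : ℂ :=
  if p ∣ q then 1 else
    1 + (1 - 1 / (p : ℂ)) * ((1 + ((p : ℂ) ^ (-(z 2)) * (p : ℂ) ^ (-(z 3)) +
      (p : ℂ) ^ (-(z 0)) * (p : ℂ) ^ (-(z 1)) -
      ((p : ℂ) ^ (-(z 2)) + (p : ℂ) ^ (-(z 3))) * ((p : ℂ) ^ (-(z 0)) + (p : ℂ) ^ (-(z 1)))) / p +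
      (p : ℂ) ^ (-(z 0)) * (p : ℂ) ^ (-(z 1)) * (p : ℂ) ^ (-(z 2)) * (p : ℂ) ^ (-(z 3)) / p ^ 2) /
      ((1 - ((p : ℂ) ^ (-(z 0))) ^ 2 / p) * (1 - ((p : ℂ) ^ (-(z 1))) ^ 2 / p)) - 1)

def lf2 (q : ℕ) (s : ℂ) (z : Fin 3 → ℂ) (p : ℕ) : ℂ :=
  if p ∣ q then 1 else
    1 + (p : ℂ) / (p + 1) * ((1 + ((p : ℂ) ^ (-(z 1)) * (p : ℂ) ^ (-(z 2)) -
      ((p : ℂ) ^ (-(z 1)) + (p : ℂ) ^ (-(z 2))) * (p : ℂ) ^ (-(z 0))) / p) /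
        (1 - ((p : ℂ) ^ (-(z 0))) ^ 2 / p) - 1 +
      (p : ℂ) ^ (s - 1) * ((p : ℂ) ^ (-(z 0)) - (p : ℂ) ^ (-(z 1)) - (p : ℂ) ^ (-(z 2)) +
        (p : ℂ) ^ (-(z 0)) * (p : ℂ) ^ (-(z 1)) * (p : ℂ) ^ (-(z 2)) / p) /
        (1 - ((p : ℂ) ^ (-(z 0))) ^ 2 / p))

def lf3 (q : ℕ) (z : Fin 2 → ℂ) (p : ℕ) : ℂ :=
  if p ∣ q then 1 else
    1 + (1 - 1 / (p : ℂ)) * ((1 - (p : ℂ) ^ (-(z 0)) * (p : ℂ) ^ (-(z 1)) / p) /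
      (1 - ((p : ℂ) ^ (-(z 0))) ^ 2 / p) - 1)

end

end Pool.Agent.H306R2.RZ
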