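import Pool.Agent.H27.G.R_seed8.H306R2.RZ.Defs2
import Pool.Agent.H27.G.R_seed8.H306R2.RZ.Defs5

set_option autoImplicit false

/-!
Definitions for the sixth wave of project RZ: the squares, for mollifiers of length up to `1/2`.
-/

namespace Pool.Agent.H306R2.RZ

open Finset Filter Topology MeasureTheory

noncomputable section

/-- admissible lengths, new range -/
structure Adm2 (s θ : ℝ) : Prop where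
  hs : 1 / 2 ≤ s
  hθ : 0 < θ
  hs1 : s < 1
  hθ1 : θ < 1 / 2
  hst : s + θ < 1
  main : s + θ < 1

/-- `(uv)^{-1/2} κ_s(uvr)` for `(uv,q) = 1` -/
def K2 (q r : ℕ) (s : ℂ) (u v : ℕ) : ℂ :=
  if u ≠ 0 ∧ v ≠ 0 ∧ u.Coprime q ∧ v.Coprime q then
    ((u * v : ℕ) : ℂ) ^ (-(1 / 2) : ℂ) * ks s (u * v * r) else 0

/-- `K2` convolved with the inverse of `n ↦ n^{s-1}` in both variables -/
def GG (q r : ℕ) (s : ℂ) (b1 b2 : ℕ) : ℂ :=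
  ∑ x ∈ b1.divisorsAntidiagonal, ∑ y ∈ b2.divisorsAntidiagonal,
    ((ArithmeticFunction.moebius x.1 : ℤ) : ℂ) * ((ArithmeticFunction.moebius y.1 : ℤ) : ℂ) *
      ((x.1 * y.1 : ℕ) : ℂ) ^ (s - 1) * K2 q r s x.2 y.2

/-- `Σ GG(b1,b2) (b1 b2)^{-s}` -/
def PD (q r : ℕ) (s : ℂ) : ℂ :=
  ∑' b : ℕ × ℕ, GG q r s b.1 b.2 * ((b.1 * b.2 : ℕ) : ℂ) ^ (-s)

/-- `E(p,s) = 1 + 2/p - p^{-2-2s}` -/
def Eps (s : ℂ) (p : ℕ) : ℂ := 1 + 2 / (p : ℂ) - (p : ℂ) ^ (-(2 : ℂ) - 2 * s)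

/-- local factor of `Zq` -/
def zl (q : ℕ) (s : ℂ) (p : ℕ) : ℂ :=
  (1 - 1 / (p : ℂ)) ^ 2 * (if p ∣ q then 1 else Eps s p / (1 - (p : ℂ) ^ (-(1 : ℂ) - 2 * s)))

def Zq (q : ℕ) (s : ℂ) : ℂ := ∏' p : Nat.Primes, zl q s p

/-- multiplicative function of `r` -/
def hd (s : ℂ) (r : ℕ) : ℂ := r.factorization.prod fun p b =>
  (if Even b then 1 + 1 / (p : ℂ) else (p : ℂ) ^ (s - 1 / 2) + (p : ℂ) ^ (-s - 1 / 2)) / Eps s p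

/-- coefficients for the doubly approximated term: `a = (l1, l2)` -/
def t5c (q : ℕ) (s : ℂ) (a : Fin 2 → ℕ) : ℂ :=
  if (∀ i, a i ≠ 0 ∧ Nat.Coprime (a i) q) then
    ((ArithmeticFunction.moebius (a 0) : ℤ) : ℂ) * ((ArithmeticFunction.moebius (a 1) : ℤ) : ℂ) *
      hd s (∏ i, a i) / ((Real.sqrt ((∏ i, a i : ℕ) : ℝ) : ℝ) : ℂ)
  else 0

def DD5 (q : ℕ) (s : ℂ) (z : Fin 2 → ℂ) : ℂ :=
  ∑' a : Fin 2 → ℕ, t5c q s a * ∏ i, (a i : ℂ) ^ (-(z i))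

def lf5 (q : ℕ) (s : ℂ) (z : Fin 2 → ℂ) (p : ℕ) : ℂ :=
  if p ∣ q then 1 else
    1 - ((p : ℂ) ^ (-(z 0)) + (p : ℂ) ^ (-(z 1))) *
        (((p : ℂ) ^ (s - 1) + (p : ℂ) ^ (-s - 1)) / Eps s p) +
      (p : ℂ) ^ (-(z 0)) * (p : ℂ) ^ (-(z 1)) / p * ((1 + 1 / (p : ℂ)) / Eps s p)

/-- the doubly approximated contribution of the squares -/
def T2d (F : ℝ → ℝ) (X : ℝ) (q : ℕ) (L : ℝ) (w1 w2 Q1 Q2 : ℝ → ℝ) (σ0 : ℝ) : ℂ :=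
  1 / 2 * ((1 / (2 * Real.pi) : ℂ) * ∫ t : ℝ,
    Fm F ((σ0 : ℂ) + t * Complex.I) * ((X / 2 : ℝ) : ℂ) ^ (-((σ0 : ℂ) + t * Complex.I)) *
    Zf ((σ0 : ℂ) + t * Complex.I) * (L : ℂ) ^ 2 *
    (∫ y : ℝ, (w1 y : ℂ) * Complex.exp (((σ0 : ℂ) + t * Complex.I) * L * y)) *
    (∫ y : ℝ, (w2 y : ℂ) * Complex.exp (((σ0 : ℂ) + t * Complex.I) * L * y)) *
    Zq q ((σ0 : ℂ) + t * Complex.I) *
    ∑' a : Fin 2 → ℕ, t5c q ((σ0 : ℂ) + t * Complex.I) a *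
      ((Q1 (Real.log (a 0) / L) * Q2 (Real.log (a 1) / L) : ℝ) : ℂ))

end

end Pool.Agent.H306R2.RZ
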