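import Pool.Agent.H27.G.R_seed8.H306R2.RZ.Defs

set_option autoImplicit false

/-!
Definitions for the second wave of project RZ: approximate functional equation on the real axis,
weights, Sobolev argument.
-/

namespace Pool.Agent.H306R2.RZ

open Finset Filter Topology MeasureTheory

noncomputable section

/-- admissible lengths (`s`: sum in `n`, `θ`: mollifier) -/
structure Adm (s θ : ℝ) : Prop where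
  hs : 1 / 2 ≤ s
  hθ : 0 < θ
  hs1 : s < 1
  hθ1 : θ < 1 / 2
  hst : s + θ < 1
  main : 2 * s + 3 * θ < 3 / 2

/-- `θ_d(y) = Σ_{n ≥ 1} (8d|n) e^{-π n² y/(8d)}` -/
def th (d : ℕ) (y : ℝ) : ℝ :=
  ∑' n : ℕ, js (8 * (d : ℤ)) (n + 1) * Real.exp (-(Real.pi * ((n : ℝ) + 1) ^ 2 * y / (8 * d)))

/-- `π^{-σ/2} Γ(σ/2)` -/
def gm (σ : ℝ) : ℝ := Real.pi ^ (-(σ / 2)) * Real.Gamma (σ / 2)

/-- the value `L(σ, χ_{8d})` for real `σ > 0`, `d` odd squarefree (through the theta function) -/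
def LLd (d : ℕ) (σ : ℝ) : ℝ :=
  (∫ y in Set.Ioi (0 : ℝ), th d y * y ^ (σ / 2 - 1)) / ((8 * (d : ℝ)) ^ (σ / 2) * gm σ)

/-- smooth partition on the line -/
structure RH (δ : ℝ) (ρ : ℝ → ℝ) : Prop where
  smooth : ContDiff ℝ ((⊤ : ℕ∞) : WithTop ℕ∞) ρ
  zero : ∀ τ, τ ≤ -δ → ρ τ = 0
  sym : ∀ τ, ρ τ + ρ (-τ) = 1
  nonneg : ∀ τ, 0 ≤ ρ τ
  le_one : ∀ τ, ρ τ ≤ 1

/-- cutoff in the variable `y = log n / L` -/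
structure KP (δ e : ℝ) (κ : ℝ → ℝ) : Prop where
  smooth : ContDiff ℝ ((⊤ : ℕ∞) : WithTop ℕ∞) κ
  one : ∀ y, -(e / 2) ≤ y → y ≤ 1 / 2 + 2 * δ → κ y = 1
  supp : ∀ y, κ y ≠ 0 → -e ≤ y ∧ y ≤ 1 / 2 + 3 * δ
  nonneg : ∀ y, 0 ≤ κ y
  le_one : ∀ y, κ y ≤ 1

/-- smooth step: `1` for `u ≤ a`, `0` for `u ≥ b` -/
structure ST (a b : ℝ) (χ : ℝ → ℝ) : Prop where
  smooth : ContDiff ℝ ((⊤ : ℕ∞) : WithTop ℕ∞) χ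
  one : ∀ u, u ≤ a → χ u = 1
  zero : ∀ u, b ≤ u → χ u = 0
  nonneg : ∀ u, 0 ≤ χ u
  le_one : ∀ u, χ u ≤ 1

/-- `γ0 = ∫_0^∞ e^{-πv} v^{-3/4} dv` -/
def g0 : ℝ := ∫ v in Set.Ioi (0 : ℝ), Real.exp (-(Real.pi * v)) * v ^ (-(3 / 4) : ℝ)

/-- `T(L,β,v) = 1/2 + β + log(8v)/(2L)` -/
def TV (L β v : ℝ) : ℝ := 1 / 2 + β + Real.log (8 * v) / (2 * L)

/-- `K_{L,β}Φ(y) = γ0^{-1} ∫ e^{-πv} v^{-3/4} Φ(T - y) dv` -/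
def KW (L β : ℝ) (Φ : ℝ → ℝ) (y : ℝ) : ℝ :=
  (∫ v in Set.Ioi (0 : ℝ), Real.exp (-(Real.pi * v)) * v ^ (-(3 / 4) : ℝ) * Φ (TV L β v - y)) / g0

/-- infinite sum `Σ_{n ≥ 1} (8d|n) n^{-1/2} V(log n/L)` -/
def Nf (L : ℝ) (V : ℝ → ℝ) (d : ℕ) : ℝ :=
  ∑' n : ℕ, js (8 * (d : ℤ)) (n + 1) / Real.sqrt ((n : ℝ) + 1) * V (Real.log ((n : ℝ) + 1) / L)

/-- `β_d = (log d - L)/(2L)` -/
def be (L : ℝ) (d : ℕ) : ℝ := (Real.log d - L) / (2 * L)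

/-- `Φ_x(τ) = e^{-x/2} 2cosh(xτ) ρ(τ)` and its `x`-derivative -/
def Ph (ρ : ℝ → ℝ) (x τ : ℝ) : ℝ := Real.exp (-(x / 2)) * (2 * Real.cosh (x * τ)) * ρ τ

def Ph1 (ρ : ℝ → ℝ) (x τ : ℝ) : ℝ :=
  Real.exp (-(x / 2)) * (2 * τ * Real.sinh (x * τ) - Real.cosh (x * τ)) * ρ τ

/-- the factor `K_d(x)` : `Nf (KW Φ_x) = K_d(x) L(1/2 + x/L, χ)` -/
def Kd (L : ℝ) (d : ℕ) (x : ℝ) : ℝ :=
  Real.exp (-(x / 2)) * (8 * (d : ℝ)) ^ (x / (2 * L)) * gm (1 / 2 + x / L) / g0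

/-- `S(x,r) = sinh(xr)/x` (entire in `x`) -/
def Sx (x r : ℝ) : ℝ := ∫ u in (0 : ℝ)..1, r * Real.cosh (x * r * u)

/-- `∂_x S(x,r)` -/
def Sx1 (x r : ℝ) : ℝ := ∫ u in (0 : ℝ)..1, r * (r * u) * Real.sinh (x * r * u)

/-- main weights -/
def Wf (ρ κ : ℝ → ℝ) (x y : ℝ) : ℝ := Ph ρ x (1 / 2 - y) * κ y
def Wf1 (ρ κ : ℝ → ℝ) (x y : ℝ) : ℝ := Ph1 ρ x (1 / 2 - y) * κ y

/-- mollifier `q_x(t) = κ2(t) e^{x/2} ∫_0^2 S(x,r) χ(r+t) dr`, `κ2(t) = 1 - ζ(t)` -/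
def qf (ζ χ : ℝ → ℝ) (x t : ℝ) : ℝ :=
  Real.exp (x / 2) * (1 - ζ t) * ∫ r in (0 : ℝ)..2, Sx x r * χ (r + t)
def qf1 (ζ χ : ℝ → ℝ) (x t : ℝ) : ℝ :=
  Real.exp (x / 2) * (1 - ζ t) * ∫ r in (0 : ℝ)..2, (Sx x r / 2 + Sx1 x r) * χ (r + t)

/-- the scalar functions -/
def Bx (χ : ℝ → ℝ) (x : ℝ) : ℝ := ∫ u in (0 : ℝ)..1, χ u * Sx x (u + 1 / 2)
def Bx1 (χ : ℝ → ℝ) (x : ℝ) : ℝ := ∫ u in (0 : ℝ)..1, χ u * Sx1 x (u + 1 / 2)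
def nx (χ : ℝ → ℝ) : ℝ := ∫ u in (0 : ℝ)..1, χ u ^ 2
def ax (x : ℝ) : ℝ := ∫ r in (0 : ℝ)..(1 / 2), Sx x r ^ 2
def ax1 (x : ℝ) : ℝ := ∫ r in (0 : ℝ)..(1 / 2), 2 * Sx x r * Sx1 x r
def ax2 (x : ℝ) : ℝ := ∫ r in (0 : ℝ)..(1 / 2), Sx1 x r ^ 2

/-- limits of the mean squares of `G` and `G'`; `c`, `c'` are the values of `c(x)`, `c'(x)` -/
def vv (c B n a : ℝ) : ℝ := (1 - c * B) ^ 2 + c ^ 2 * n * a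
def ww (c c' B B1 n a a1 a2 : ℝ) : ℝ :=
  (c' * B + c * B1) ^ 2 + n * (c' ^ 2 * a + c * c' * a1 + c ^ 2 * a2)

/-- `G = 1 - c N[w] M[Q]` and its derivative -/
def G0 (q : ℕ) (L c : ℝ) (w Q : ℝ → ℝ) (d : ℕ) : ℝ := 1 - c * (Nd q L w d * Md q L Q d)
def G1 (q : ℕ) (L c c' : ℝ) (w w' Q Q' : ℝ → ℝ) (d : ℕ) : ℝ :=
  -(c' * (Nd q L w d * Md q L Q d) + c * (Nd q L w' d * Md q L Q d + Nd q L w d * Md q L Q' d))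

/-- sieved average: `Σ_{a | P} μ(a) a^{-2} E_{X/a²}[f(a² ·)]` -/
def ES (P : ℕ) (F : ℝ → ℝ) (X : ℝ) (f : ℕ → ℝ) : ℝ :=
  ∑ a ∈ P.divisors, ((ArithmeticFunction.moebius a : ℤ) : ℝ) / (a : ℝ) ^ 2 *
    EF F (X / (a : ℝ) ^ 2) (fun d => f (a ^ 2 * d))

/-- `∏_{p | P} (1 - 1/p²)` -/
def PiP (P : ℕ) : ℝ := ∏ p ∈ P.primeFactors, (1 - 1 / (p : ℝ) ^ 2)

/-- product weights twisted by `η(y_n + y_l)` -/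
def Ed (q : ℕ) (L : ℝ) (a b η : ℝ → ℝ) (d : ℕ) : ℝ :=
  ∑' p : ℕ × ℕ, if p.1.Coprime q ∧ p.2.Coprime q then
    ((ArithmeticFunction.moebius p.2 : ℤ) : ℝ) * js (8 * (d : ℤ)) (p.1 * p.2) /
      Real.sqrt ((p.1 : ℝ) * p.2) * a (Real.log p.1 / L) * b (Real.log p.2 / L) *
      η ((Real.log p.1 + Real.log p.2) / L) else 0

/-- `e^{-x/2} e^{xτ}` and its `x`-derivative -/
def Ex (x τ : ℝ) : ℝ := Real.exp (x * τ - x / 2)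
def Ex1 (x τ : ℝ) : ℝ := (τ - 1 / 2) * Real.exp (x * τ - x / 2)

/-- bad discriminants -/
def bad1 (L X0 : ℝ) (d : ℕ) : Prop := ∃ x : ℝ, 0 ≤ x ∧ x ≤ X0 ∧ LLd d (1 / 2 + x / L) = 0
def bad2 (L X0 : ℝ) (d : ℕ) : Prop := ∃ x : ℝ, X0 ≤ x ∧ x ≤ L / 2 ∧ LLd d (1 / 2 + x / L) = 0

/-- weighted count of the `d` satisfying `A`, divided by `e^L` -/
def cnt (F : ℝ → ℝ) (L : ℝ) (A : Set ℕ) : ℝ :=
  (∑' d : ℕ, A.indicator (fun d => F ((d : ℝ) / Real.exp L)) d) / Real.exp L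

/-- odd squarefree numbers -/
def OS : Set ℕ := {d | Odd d ∧ Squarefree d}

/-- the true function `G` of the main range and its derivative -/
def Gt (L : ℝ) (ρ ζ χ c : ℝ → ℝ) (d : ℕ) (x : ℝ) : ℝ :=
  1 - c x * (Nf L (KW L (be L d) (Ph ρ x)) d * Md 2 L (qf ζ χ x) d)

def Gt1 (L : ℝ) (ρ ζ χ c c' : ℝ → ℝ) (d : ℕ) (x : ℝ) : ℝ :=
  -(c' x * (Nf L (KW L (be L d) (Ph ρ x)) d * Md 2 L (qf ζ χ x) d) +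
    c x * (Nf L (KW L (be L d) (Ph1 ρ x)) d * Md 2 L (qf ζ χ x) d +
      Nf L (KW L (be L d) (Ph ρ x)) d * Md 2 L (qf1 ζ χ x) d))

/-- the function `G` of the tail and its derivative -/
def Gu (L : ℝ) (ρ r κ : ℝ → ℝ) (d : ℕ) (x : ℝ) : ℝ :=
  Kd L d x - Nf L (KW L (be L d) (Ph ρ x)) d *
    Md 2 L (fun t => Real.exp (-(x * t)) * r t * κ t) d

def Gu1 (L : ℝ) (ρ r κ : ℝ → ℝ) (d : ℕ) (x : ℝ) : ℝ :=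
  KW L (be L d) (Ex1 x) 0 -
    (Nf L (KW L (be L d) (Ph1 ρ x)) d * Md 2 L (fun t => Real.exp (-(x * t)) * r t * κ t) d +
     Nf L (KW L (be L d) (Ph ρ x)) d * Md 2 L (fun t => -t * Real.exp (-(x * t)) * r t * κ t) d)

end

end Pool.Agent.H306R2.RZ
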