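import Pool.Agent.H27.G.R_seed8.H306R2.RZ.Defs2

set_option autoImplicit false

/-!
Definitions for the third wave of project RZ (numerical input): the choice
`c(x) = 1 / (B(x) + k √a(x))`, `k = 1/(√6 (1+θ))`.
-/

namespace Pool.Agent.H306R2.RZ

open Finset Filter Topology MeasureTheory

noncomputable section

/-- `B_θ(x) = ∫_0^θ S(x, u + 1/2) du` and `B_θ'(x)` -/
def Bn (θ x : ℝ) : ℝ := ∫ u in (0 : ℝ)..θ, Sx x (u + 1 / 2)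
def Bn1 (θ x : ℝ) : ℝ := ∫ u in (0 : ℝ)..θ, Sx1 x (u + 1 / 2)

/-- `k` -/
def kN (θ : ℝ) : ℝ := 1 / (Real.sqrt 6 * (1 + θ))

/-- `c(x)` and `c'(x)` -/
def cN (θ x : ℝ) : ℝ := 1 / (Bn θ x + kN θ * Real.sqrt (ax x))
def cN1 (θ x : ℝ) : ℝ :=
  -(Bn1 θ x + kN θ * (ax1 x / (2 * Real.sqrt (ax x)))) / (Bn θ x + kN θ * Real.sqrt (ax x)) ^ 2

/-- `z(x) = c(x) √a(x)` -/
def zN (θ x : ℝ) : ℝ := cN θ x * Real.sqrt (ax x)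

/-- `V(x)` and `y(x)` -/
def VN (x : ℝ) : ℝ := ax2 x / ax x - (ax1 x / ax x) ^ 2 / 4
def yN (θ x : ℝ) : ℝ := 2 * (Bn1 θ x / Bn θ x) - ax1 x / ax x

/-- closed forms of `V` and `y` for `x > 0` -/
def Vx (x : ℝ) : ℝ :=
  (Real.sinh x ^ 2 - x ^ 2 - 2 / 3 * x ^ 3 * Real.sinh x - 2 * x * Real.sinh x - x ^ 4 / 3 +
    2 * x ^ 2 * Real.cosh x) / (4 * x ^ 2 * (Real.sinh x - x) ^ 2)
def Yx (θ x : ℝ) : ℝ :=
  (1 + θ) * (Real.cosh ((1 + θ) * x / 2) / Real.sinh ((1 + θ) * x / 2)) +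
    θ * (Real.cosh (θ * x / 2) / Real.sinh (θ * x / 2)) - 1 / x -
    (Real.cosh x - 1) / (Real.sinh x - x)
/-- lower bound of `y` -/
def Yl (θ x : ℝ) : ℝ :=
  Real.sinh x / (Real.cosh x - 1) + θ * ((Real.sinh x - x) / (Real.cosh x - 1)) + 1 / x -
    (Real.cosh x - 1) / (Real.sinh x - x)

/-- the final bound: `ϱ/(1+ϱ) + 4C(ϱ - log(1+ϱ))/ϱ`, `ϱ = 1/(6θ(1+θ)²)` -/
def rN (θ : ℝ) : ℝ := 1 / (6 * θ * (1 + θ) ^ 2)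
def Jf (θ C : ℝ) : ℝ :=
  rN θ / (1 + rN θ) + 4 * C * ((rN θ - Real.log (1 + rN θ)) / rN θ)

/-- the potential -/
def PhN (θ C z : ℝ) : ℝ :=
  (kN θ ^ 2 + θ) * z ^ 2 +
    4 * θ * C / kN θ ^ 2 * (1 / (1 - kN θ * z) + Real.log (1 - kN θ * z) - 1)

end

end Pool.Agent.H306R2.RZ
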